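import Mathlib
import Pool.Agent.N483.KM.Stm
import Pool.Agent.H888R2.KT.N0

/-!
# KM/SHF: Gaussian measures of a set, centred at two points (helper868)
-/

set_option autoImplicit false

namespace Pool.Agent.N868.KM.Shf

open MeasureTheory Set
open scoped InnerProductSpace
open Pool.Agent.H888R2.KT (gs gc gc_pos)
open Pool.Agent.R754.KG (E)

lemma expo {k : ℕ} (x x' y : E k) {h : ℝ} (hh : 0 < h) :
    -(‖(2 : ℝ) • x - x' - y‖ ^ 2 / (2 * h)) + ‖x - x'‖ ^ 2 / h =
      2 * -(‖x - y‖ ^ 2 / (2 * h)) - -(‖x' - y‖ ^ 2 / (2 * h)) := by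
  have h1 : ‖(2 : ℝ) • x - x' - y‖ ^ 2 = 2 * ‖x - x'‖ ^ 2 + 2 * ‖x - y‖ ^ 2 - ‖x' - y‖ ^ 2 := by
    have e1 : (2 : ℝ) • x - x' - y = (x - x') + (x - y) := by rw [two_smul]; abel
    have e2 : x' - y = (x - y) - (x - x') := by abel
    have e3 := norm_add_sq_real (x - x') (x - y)
    have e4 := norm_sub_sq_real (x - y) (x - x')
    rw [real_inner_comm] at e4
    rw [e1, e2]
    linarith
  rw [h1]
  field_simp
  ring

theorem t_SHF : Pool.Agent.N483.KM.S_SHF := by
  intro k h U x x' hh hU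
  obtain ⟨hgc, hint, hI, -⟩ := gc_pos (κ := Fin k) h hh
  obtain ⟨G, hG⟩ : ∃ G : E k → ℝ, G = fun y => Real.exp (-(‖x - y‖ ^ 2 / (2 * h))) := ⟨_, rfl⟩
  obtain ⟨G', hG'⟩ : ∃ G' : E k → ℝ, G' = fun y => Real.exp (-(‖x' - y‖ ^ 2 / (2 * h))) := ⟨_, rfl⟩
  obtain ⟨Q, hQ⟩ : ∃ Q : E k → ℝ, Q = fun y =>
      Real.exp (-(‖(2 : ℝ) • x - x' - y‖ ^ 2 / (2 * h))) * Real.exp (‖x - x'‖ ^ 2 / h) := ⟨_, rfl⟩
  have hGi : Integrable G := by rw [hG]; exact hI x
  have hGi' : Integrable G' := by rw [hG']; exact hI x'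
  have hQi : Integrable Q := by rw [hQ]; exact (hI _).mul_const _
  have hQint : ∫ y, Q y = gc (Fin k) h * Real.exp (‖x - x'‖ ^ 2 / h) := by
    rw [hQ, integral_mul_const, hint]
  have hG0 : ∀ y, 0 < G y := fun y => by rw [hG]; exact Real.exp_pos _
  have hG0' : ∀ y, 0 < G' y := fun y => by rw [hG']; exact Real.exp_pos _
  have hQG : ∀ y, Q y * G' y = G y ^ 2 := by
    intro y
    rw [hQ, hG, hG']
    simp only
    rw [← Real.exp_add, ← Real.exp_add, ← Real.exp_nat_mul, expo x x' y hh]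
    congr 1
    push_cast
    ring
  have hQ0 : ∀ y, 0 < Q y := fun y => by rw [hQ]; exact mul_pos (Real.exp_pos _) (Real.exp_pos _)
  obtain ⟨a, ha⟩ : ∃ a, a = ∫ y, U.indicator G y := ⟨_, rfl⟩
  obtain ⟨a', ha'⟩ : ∃ a', a' = ∫ y, U.indicator G' y := ⟨_, rfl⟩
  have e1 : gs h (U.indicator fun _ => (1 : ℝ)) x = a / gc (Fin k) h := by
    unfold gs
    rw [ha, hG]
    congr 1
    refine integral_congr_ae (Filter.Eventually.of_forall fun y => ?_)
    by_cases hy : y ∈ U <;> simp [hy]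
  have e2 : gs h (U.indicator fun _ => (1 : ℝ)) x' = a' / gc (Fin k) h := by
    unfold gs
    rw [ha', hG']
    congr 1
    refine integral_congr_ae (Filter.Eventually.of_forall fun y => ?_)
    by_cases hy : y ∈ U <;> simp [hy]
  obtain ⟨c, hc⟩ : ∃ c, c = gc (Fin k) h * Real.exp (‖x - x'‖ ^ 2 / h) := ⟨_, rfl⟩
  have hc0 : 0 < c := by rw [hc]; exact mul_pos hgc (Real.exp_pos _)
  have ha0 : 0 ≤ a := by
    rw [ha]
    exact integral_nonneg fun y => indicator_nonneg (fun y _ => (hG0 y).le) y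
  -- the inequality of Cauchy and Schwarz
  have key : ∀ t : ℝ, 0 ≤ t → 2 * t * a ≤ a' + t ^ 2 * c := by
    intro t ht
    have h1 : ∫ y, 2 * t * U.indicator G y ≤ ∫ y, (U.indicator G' y + t ^ 2 * Q y) := by
      refine integral_mono ((hGi.indicator hU).const_mul _)
        ((hGi'.indicator hU).add (hQi.const_mul _)) fun y => ?_
      by_cases hy : y ∈ U
      · simp only [indicator_of_mem hy]
        have h2 := hQG y
        have h3 : 0 ≤ (G' y - t * G y) ^ 2 := sq_nonneg _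
        have h4 : (G' y - t * G y) ^ 2 = G' y * (G' y + t ^ 2 * Q y - 2 * t * G y) := by
          linear_combination (-t ^ 2) * h2
        rw [h4] at h3
        have h5 := nonneg_of_mul_nonneg_right h3 (hG0' y)
        linarith
      · simp only [indicator_of_notMem hy]
        have := (hQ0 y).le
        rw [mul_zero, zero_add]
        positivity
    rw [integral_const_mul, integral_add (hGi'.indicator hU) (hQi.const_mul _),
      integral_const_mul, hQint, ← ha, ← ha', ← hc] at h1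
    exact h1
  have h1 : a ^ 2 ≤ a' * c := by
    have h2 := key (a / c) (by positivity)
    have h3 : 2 * (a / c) * a = 2 * (a ^ 2 / c) := by ring
    have h4 : (a / c) ^ 2 * c = a ^ 2 / c := by field_simp
    rw [h3, h4] at h2
    have h5 : a ^ 2 / c ≤ a' := by linarith
    rwa [div_le_iff₀ hc0] at h5
  rw [e1, e2, div_pow, div_mul_eq_mul_div, div_le_div_iff₀ (by positivity) hgc]
  have h2 : c * Real.exp (-(‖x - x'‖ ^ 2 / h)) = gc (Fin k) h := by
    rw [hc, mul_assoc, ← Real.exp_add, add_neg_cancel, Real.exp_zero, mul_one]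
  have h3 : 0 ≤ Real.exp (-(‖x - x'‖ ^ 2 / h)) * gc (Fin k) h := by positivity
  have h4 := mul_le_mul_of_nonneg_right h1 h3
  calc a ^ 2 * Real.exp (-(‖x - x'‖ ^ 2 / h)) * gc (Fin k) h =
        a ^ 2 * (Real.exp (-(‖x - x'‖ ^ 2 / h)) * gc (Fin k) h) := by ring
    _ ≤ a' * c * (Real.exp (-(‖x - x'‖ ^ 2 / h)) * gc (Fin k) h) := h4
    _ = a' * (c * Real.exp (-(‖x - x'‖ ^ 2 / h))) * gc (Fin k) h := by ring
    _ = a' * gc (Fin k) h ^ 2 := by rw [h2]; ring

end Pool.Agent.N868.KM.Shf
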